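import Pool.Agent.helper14.NS.Q68c.PN5

/-!
Generated: certificates.
-/

namespace Pool.Agent.helper14.NS.Q68c

open Pool.Agent.helper31.IA (Z)
open Pool.Agent.helper31.IX (Op XOps runX Cov CovD cov_split covD_split)
open Pool.Agent.helper31.IC (TD)
open Pool.Agent.helper63.RG (reloc)
open Pool.Agent.helper63.NF hiding TD
open Pool.Agent.helper4.NS
open Pool.Agent.helper14.CF (xE covD_E)
open Pool.Agent.helper14.NR (share)

mutual
theorem A5_c0_t5 : CovD 1 gA5 [(12288262144, 1293942784), (687194767360, 137438953472), (549755813888, 549755813888)] :=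
  covD_E kA5_eq (.n 2 (.n 1 (.n 2 (.n 2 (.l 0) (.l 0)) (.n 2 (.l 0) (.l 0))) (.n 2 (.n 2 (.l 0) (.l 0)) (.n 2 (.l 0) (.l 0)))) (.n 2 (.n 2 (.n 0 (.l 0) (.l 0)) (.l 0)) (.n 2 (.l 0) (.n 0 (.l 0) (.l 0)))))
    [(12288262144, 1293942784), (687194767360, 137438953472), (549755813888, 549755813888)] rfl (by decide +kernel)
theorem A5_c0_t6 : CovD 1 gA5 [(12288262144, 1293942784), (687194767360, 137438953472), (1649267441664, 549755813888)] :=
  covD_E kA5_eq (.n 2 (.n 1 (.n 2 (.n 2 (.l 0) (.l 0)) (.n 2 (.l 0) (.l 0))) (.n 2 (.n 0 (.l 0) (.l 0)) (.l 0))) (.n 2 (.n 1 (.n 0 (.l 0) (.l 0)) (.l 0)) (.n 2 (.l 0) (.l 0))))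
    [(12288262144, 1293942784), (687194767360, 137438953472), (1649267441664, 549755813888)] rfl (by decide +kernel)
end

mutual
theorem A5_c0_t8 : CovD 1 gA5 [(12288262144, 1293942784), (687194767360, 137438953472), (2748779069440, 549755813888)] :=
  covD_E kA5_eq (.n 2 (.n 2 (.n 2 (.l 0) (.l 0)) (.n 2 (.l 0) (.l 0))) (.n 2 (.n 2 (.l 0) (.l 0)) (.n 0 (.l 0) (.l 0))))
    [(12288262144, 1293942784), (687194767360, 137438953472), (2748779069440, 549755813888)] rfl (by decide +kernel)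
theorem A5_c0_t9 : CovD 1 gA5 [(12288262144, 1293942784), (687194767360, 137438953472), (3848290697216, 549755813888)] :=
  covD_E kA5_eq (.n 2 (.n 0 (.n 2 (.l 0) (.l 0)) (.n 2 (.l 0) (.l 0))) (.n 2 (.n 2 (.l 0) (.n 0 (.n 1 (.l 1) (.n 0 (.l 1) (.l 1))) (.n 0 (.n 1 (.l 1) (.l 1)) (.n 1 (.l 1) (.n 2 (.l 1) (.l 1)))))) (.l 1)))
    [(12288262144, 1293942784), (687194767360, 137438953472), (3848290697216, 549755813888)] rfl (by decide +kernel)
end

mutual
theorem A5_c0_t12 : CovD 1 gA5 [(12288262144, 1293942784), (962072674304, 137438953472), (549755813888, 549755813888)] :=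
  covD_E kA5_eq (.n 2 (.n 2 (.n 0 (.n 2 (.l 0) (.l 0)) (.n 2 (.l 0) (.l 0))) (.n 2 (.n 0 (.l 0) (.l 0)) (.l 0))) (.n 2 (.n 2 (.l 0) (.l 0)) (.n 1 (.l 0) (.l 0))))
    [(12288262144, 1293942784), (962072674304, 137438953472), (549755813888, 549755813888)] rfl (by decide +kernel)
theorem A5_c0_t13 : CovD 1 gA5 [(12288262144, 1293942784), (962072674304, 137438953472), (1649267441664, 549755813888)] :=
  covD_E kA5_eq (.n 1 (.n 2 (.n 2 (.l 0) (.l 0)) (.n 2 (.l 0) (.l 0))) (.n 2 (.n 2 (.l 0) (.l 0)) (.n 2 (.l 0) (.l 0))))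
    [(12288262144, 1293942784), (962072674304, 137438953472), (1649267441664, 549755813888)] rfl (by decide +kernel)
end

mutual
theorem A5_c0_t15 : CovD 1 gA5 [(12288262144, 1293942784), (962072674304, 137438953472), (2748779069440, 549755813888)] :=
  covD_E kA5_eq (.n 0 (.n 2 (.n 2 (.l 0) (.l 0)) (.n 2 (.l 0) (.l 0))) (.n 2 (.n 2 (.l 0) (.l 0)) (.n 2 (.l 0) (.l 0))))
    [(12288262144, 1293942784), (962072674304, 137438953472), (2748779069440, 549755813888)] rfl (by decide +kernel)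
theorem A5_c0_t16 : CovD 1 gA5 [(12288262144, 1293942784), (962072674304, 137438953472), (3848290697216, 549755813888)] :=
  covD_E kA5_eq (.n 2 (.n 2 (.l 0) (.n 0 (.l 0) (.l 0))) (.n 2 (.n 2 (.l 0) (.n 0 (.n 2 (.l 0) (.l 1)) (.n 2 (.l 0) (.l 1)))) (.l 1)))
    [(12288262144, 1293942784), (962072674304, 137438953472), (3848290697216, 549755813888)] rfl (by decide +kernel)
end

mutual
theorem A5_c0_t20 : CovD 1 gA5 [(14876147712, 1293942784), (687194767360, 137438953472), (549755813888, 549755813888)] :=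
  covD_E kA5_eq (.n 2 (.n 0 (.n 2 (.n 2 (.l 0) (.l 0)) (.n 2 (.l 0) (.l 0))) (.n 2 (.n 2 (.l 0) (.l 0)) (.n 2 (.l 0) (.l 0)))) (.n 2 (.n 2 (.l 0) (.l 0)) (.n 2 (.l 0) (.l 0))))
    [(14876147712, 1293942784), (687194767360, 137438953472), (549755813888, 549755813888)] rfl (by decide +kernel)
theorem A5_c0_t21 : CovD 1 gA5 [(14876147712, 1293942784), (687194767360, 137438953472), (1649267441664, 549755813888)] :=
  covD_E kA5_eq (.n 1 (.n 2 (.n 2 (.n 0 (.l 0) (.l 0)) (.l 0)) (.n 2 (.l 0) (.l 0))) (.n 2 (.n 2 (.l 0) (.l 0)) (.n 2 (.l 0) (.l 0))))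
    [(14876147712, 1293942784), (687194767360, 137438953472), (1649267441664, 549755813888)] rfl (by decide +kernel)
end

mutual
theorem A5_c0_t22 : CovD 1 gA5 [(14876147712, 1293942784), (687194767360, 137438953472), (3298534883328, 1099511627776)] :=
  covD_E kA5_eq (.n 2 (.n 2 (.n 0 (.n 2 (.l 0) (.l 0)) (.n 2 (.l 0) (.l 0))) (.n 2 (.n 0 (.l 0) (.l 0)) (.l 0))) (.n 2 (.n 2 (.l 0) (.l 0)) (.n 2 (.n 2 (.l 0) (.n 0 (.n 2 (.l 0) (.l 1)) (.n 2 (.l 0) (.l 1)))) (.l 1))))
    [(14876147712, 1293942784), (687194767360, 137438953472), (3298534883328, 1099511627776)] rfl (by decide +kernel)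
theorem A5_c0_t25 : CovD 1 gA5 [(14876147712, 1293942784), (962072674304, 137438953472), (549755813888, 549755813888)] :=
  covD_E kA5_eq (.n 2 (.n 0 (.n 2 (.n 2 (.l 0) (.l 0)) (.n 2 (.l 0) (.l 0))) (.n 2 (.n 2 (.l 0) (.l 0)) (.n 2 (.l 0) (.l 0)))) (.n 2 (.n 2 (.l 0) (.l 0)) (.n 1 (.l 0) (.l 0))))
    [(14876147712, 1293942784), (962072674304, 137438953472), (549755813888, 549755813888)] rfl (by decide +kernel)
end

mutual
theorem A5_c0_t26 : CovD 1 gA5 [(14876147712, 1293942784), (962072674304, 137438953472), (1649267441664, 549755813888)] :=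
  covD_E kA5_eq (.n 1 (.n 2 (.n 2 (.l 0) (.l 0)) (.n 2 (.l 0) (.l 0))) (.n 2 (.n 2 (.l 0) (.l 0)) (.n 2 (.l 0) (.l 0))))
    [(14876147712, 1293942784), (962072674304, 137438953472), (1649267441664, 549755813888)] rfl (by decide +kernel)
theorem A5_c0_t27 : CovD 1 gA5 [(14876147712, 1293942784), (962072674304, 137438953472), (3298534883328, 1099511627776)] :=
  covD_E kA5_eq (.n 2 (.n 2 (.n 2 (.n 0 (.l 0) (.l 0)) (.l 0)) (.n 2 (.l 0) (.l 0))) (.n 2 (.n 0 (.l 0) (.l 0)) (.n 2 (.n 2 (.l 0) (.n 2 (.l 0) (.n 1 (.n 0 (.l 1) (.l 1)) (.n 0 (.l 1) (.l 1))))) (.n 0 (.l 1) (.l 1)))))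
    [(14876147712, 1293942784), (962072674304, 137438953472), (3298534883328, 1099511627776)] rfl (by decide +kernel)
end

mutual
theorem A5_c0_t28 : CovD 1 gA5 [(13582204928, 2587885568), (824633720832, 274877906944), (6597069766656, 2199023255552)] :=
  covD_E kA5_eq (.n 2 (.n 2 (.n 2 (.n 0 (.l 1) (.l 1)) (.l 1)) (.n 0 (.l 1) (.l 1))) (.n 0 (.n 2 (.l 1) (.l 1)) (.n 0 (.l 1) (.l 1))))
    [(13582204928, 2587885568), (824633720832, 274877906944), (6597069766656, 2199023255552)] rfl (by decide +kernel)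
theorem B5_c0_t4 : CovD 1 gB5 [(12288262144, 1293942784), (687194767360, 137438953472), (17179869184, 17179869184)] :=
  covD_E kB5_eq (.n 2 (.n 2 (.n 0 (.n 2 (.l 1) (.l 1)) (.n 2 (.l 1) (.l 1))) (.n 2 (.n 0 (.l 1) (.l 1)) (.l 1))) (.n 2 (.n 2 (.l 1) (.l 1)) (.n 2 (.l 1) (.l 1))))
    [(12288262144, 1293942784), (687194767360, 137438953472), (17179869184, 17179869184)] rfl (by decide +kernel)
end

mutual
theorem B5_c0_t5 : CovD 1 gB5 [(12288262144, 1293942784), (962072674304, 137438953472), (17179869184, 17179869184)] :=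
  covD_E kB5_eq (.n 2 (.n 2 (.n 2 (.l 1) (.l 1)) (.n 2 (.l 1) (.l 1))) (.n 0 (.n 2 (.l 1) (.l 1)) (.n 2 (.l 1) (.l 1))))
    [(12288262144, 1293942784), (962072674304, 137438953472), (17179869184, 17179869184)] rfl (by decide +kernel)
theorem B5_c0_t6 : CovD 1 gB5 [(12288262144, 1293942784), (824633720832, 274877906944), (51539607552, 17179869184)] :=
  covD_E kB5_eq (.n 2 (.n 1 (.n 2 (.l 1) (.l 1)) (.n 2 (.l 1) (.l 1))) (.n 2 (.n 0 (.l 1) (.l 1)) (.l 1)))
    [(12288262144, 1293942784), (824633720832, 274877906944), (51539607552, 17179869184)] rfl (by decide +kernel)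
end

mutual
theorem B5_c0_t7 : CovD 1 gB5 [(12288262144, 1293942784), (824633720832, 274877906944), (103079215104, 34359738368)] :=
  covD_E kB5_eq (.n 2 (.n 2 (.n 2 (.l 1) (.l 1)) (.n 0 (.l 1) (.l 1))) (.n 2 (.l 1) (.l 1)))
    [(12288262144, 1293942784), (824633720832, 274877906944), (103079215104, 34359738368)] rfl (by decide +kernel)
theorem B5_c0_t10 : CovD 1 gB5 [(14876147712, 1293942784), (824633720832, 274877906944), (17179869184, 17179869184)] :=
  covD_E kB5_eq (.n 1 (.n 2 (.n 2 (.n 2 (.l 1) (.l 1)) (.n 2 (.l 1) (.l 1))) (.n 0 (.n 2 (.l 1) (.l 1)) (.n 2 (.l 1) (.l 1)))) (.n 2 (.n 2 (.n 0 (.l 1) (.l 1)) (.l 1)) (.n 2 (.l 1) (.l 1))))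
    [(14876147712, 1293942784), (824633720832, 274877906944), (17179869184, 17179869184)] rfl (by decide +kernel)
end

mutual
theorem B5_c0_t11 : CovD 1 gB5 [(14876147712, 1293942784), (824633720832, 274877906944), (51539607552, 17179869184)] :=
  covD_E kB5_eq (.n 2 (.n 1 (.n 2 (.l 1) (.l 1)) (.n 2 (.l 1) (.l 1))) (.n 2 (.n 0 (.l 1) (.l 1)) (.l 1)))
    [(14876147712, 1293942784), (824633720832, 274877906944), (51539607552, 17179869184)] rfl (by decide +kernel)
theorem B5_c0_t12 : CovD 1 gB5 [(14876147712, 1293942784), (824633720832, 274877906944), (103079215104, 34359738368)] :=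
  covD_E kB5_eq (.n 2 (.n 1 (.n 2 (.l 1) (.l 1)) (.n 2 (.l 1) (.l 1))) (.n 2 (.l 1) (.l 1)))
    [(14876147712, 1293942784), (824633720832, 274877906944), (103079215104, 34359738368)] rfl (by decide +kernel)
end

mutual
theorem D5_c0 : CovD 1 gD5 [(13582204928, 2587885568), (824633720832, 274877906944), (863610339328, 863610339328)] :=
  covD_E kD5_eq (.n 1 (.n 2 (.n 2 (.n 2 (.l 0) (.l 0)) (.n 2 (.l 0) (.l 0))) (.n 2 (.n 2 (.l 0) (.l 0)) (.n 2 (.l 0) (.l 0)))) (.n 2 (.n 2 (.n 2 (.l 0) (.l 0)) (.n 2 (.l 0) (.l 0))) (.n 2 (.n 2 (.l 0) (.l 0)) (.n 2 (.l 0) (.l 0)))))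
    [(13582204928, 2587885568), (824633720832, 274877906944), (863610339328, 863610339328)] rfl (by decide +kernel)
theorem E5_c0_t1 : CovD 1 gE5 [(13582204928, 2587885568), (687194767360, 137438953472), (863610339328, 863610339328)] :=
  covD_E kE5_eq (.n 2 (.n 2 (.n 0 (.n 2 (.l 1) (.n 2 (.l 0) (.l 0))) (.n 2 (.l 1) (.n 2 (.l 0) (.l 0)))) (.n 2 (.n 2 (.l 0) (.l 0)) (.n 2 (.l 0) (.l 0)))) (.n 2 (.n 2 (.n 2 (.l 0) (.l 0)) (.n 0 (.l 0) (.l 0))) (.n 2 (.l 0) (.l 0))))
    [(13582204928, 2587885568), (687194767360, 137438953472), (863610339328, 863610339328)] rfl (by decide +kernel)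
end

theorem E5_c0_t2 : CovD 1 gE5 [(13582204928, 2587885568), (962072674304, 137438953472), (863610339328, 863610339328)] :=
  covD_E kE5_eq (.n 2 (.n 2 (.n 2 (.l 1) (.n 0 (.n 2 (.l 0) (.l 0)) (.n 2 (.l 0) (.l 0)))) (.n 2 (.n 2 (.l 0) (.l 0)) (.n 2 (.l 0) (.l 0)))) (.n 2 (.n 2 (.n 2 (.l 0) (.l 0)) (.n 0 (.l 0) (.l 0))) (.n 2 (.l 0) (.l 0))))
    [(13582204928, 2587885568), (962072674304, 137438953472), (863610339328, 863610339328)] rfl (by decide +kernel)

theorem A5_c0_t4 : CovD 1 gA5 [(12288262144, 1293942784), (687194767360, 137438953472), (1099511627776, 1099511627776)] :=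
  covD_split 2 (by decide +kernel) A5_c0_t5 A5_c0_t6

theorem A5_c0_t7 : CovD 1 gA5 [(12288262144, 1293942784), (687194767360, 137438953472), (3298534883328, 1099511627776)] :=
  covD_split 2 (by decide +kernel) A5_c0_t8 A5_c0_t9

theorem A5_c0_t3 : CovD 1 gA5 [(12288262144, 1293942784), (687194767360, 137438953472), (2199023255552, 2199023255552)] :=
  covD_split 2 (by decide +kernel) A5_c0_t4 A5_c0_t7

theorem A5_c0_t11 : CovD 1 gA5 [(12288262144, 1293942784), (962072674304, 137438953472), (1099511627776, 1099511627776)] :=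
  covD_split 2 (by decide +kernel) A5_c0_t12 A5_c0_t13

theorem A5_c0_t14 : CovD 1 gA5 [(12288262144, 1293942784), (962072674304, 137438953472), (3298534883328, 1099511627776)] :=
  covD_split 2 (by decide +kernel) A5_c0_t15 A5_c0_t16

theorem A5_c0_t10 : CovD 1 gA5 [(12288262144, 1293942784), (962072674304, 137438953472), (2199023255552, 2199023255552)] :=
  covD_split 2 (by decide +kernel) A5_c0_t11 A5_c0_t14

theorem A5_c0_t2 : CovD 1 gA5 [(12288262144, 1293942784), (824633720832, 274877906944), (2199023255552, 2199023255552)] :=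
  covD_split 1 (by decide +kernel) A5_c0_t3 A5_c0_t10

theorem A5_c0_t19 : CovD 1 gA5 [(14876147712, 1293942784), (687194767360, 137438953472), (1099511627776, 1099511627776)] :=
  covD_split 2 (by decide +kernel) A5_c0_t20 A5_c0_t21

theorem A5_c0_t18 : CovD 1 gA5 [(14876147712, 1293942784), (687194767360, 137438953472), (2199023255552, 2199023255552)] :=
  covD_split 2 (by decide +kernel) A5_c0_t19 A5_c0_t22

theorem A5_c0_t24 : CovD 1 gA5 [(14876147712, 1293942784), (962072674304, 137438953472), (1099511627776, 1099511627776)] :=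
  covD_split 2 (by decide +kernel) A5_c0_t25 A5_c0_t26

theorem A5_c0_t23 : CovD 1 gA5 [(14876147712, 1293942784), (962072674304, 137438953472), (2199023255552, 2199023255552)] :=
  covD_split 2 (by decide +kernel) A5_c0_t24 A5_c0_t27

theorem A5_c0_t17 : CovD 1 gA5 [(14876147712, 1293942784), (824633720832, 274877906944), (2199023255552, 2199023255552)] :=
  covD_split 1 (by decide +kernel) A5_c0_t18 A5_c0_t23

theorem A5_c0_t1 : CovD 1 gA5 [(13582204928, 2587885568), (824633720832, 274877906944), (2199023255552, 2199023255552)] :=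
  covD_split 0 (by decide +kernel) A5_c0_t2 A5_c0_t17

theorem A5_c0 : CovD 1 gA5 [(13582204928, 2587885568), (824633720832, 274877906944), (4398046511104, 4398046511104)] :=
  covD_split 2 (by decide +kernel) A5_c0_t1 A5_c0_t28

theorem B5_c0_t3 : CovD 1 gB5 [(12288262144, 1293942784), (824633720832, 274877906944), (17179869184, 17179869184)] :=
  covD_split 1 (by decide +kernel) B5_c0_t4 B5_c0_t5

theorem B5_c0_t2 : CovD 1 gB5 [(12288262144, 1293942784), (824633720832, 274877906944), (34359738368, 34359738368)] :=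
  covD_split 2 (by decide +kernel) B5_c0_t3 B5_c0_t6

theorem B5_c0_t1 : CovD 1 gB5 [(12288262144, 1293942784), (824633720832, 274877906944), (68719476736, 68719476736)] :=
  covD_split 2 (by decide +kernel) B5_c0_t2 B5_c0_t7

theorem B5_c0_t9 : CovD 1 gB5 [(14876147712, 1293942784), (824633720832, 274877906944), (34359738368, 34359738368)] :=
  covD_split 2 (by decide +kernel) B5_c0_t10 B5_c0_t11

theorem B5_c0_t8 : CovD 1 gB5 [(14876147712, 1293942784), (824633720832, 274877906944), (68719476736, 68719476736)] :=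
  covD_split 2 (by decide +kernel) B5_c0_t9 B5_c0_t12

theorem B5_c0 : CovD 1 gB5 [(13582204928, 2587885568), (824633720832, 274877906944), (68719476736, 68719476736)] :=
  covD_split 0 (by decide +kernel) B5_c0_t1 B5_c0_t8

theorem E5_c0 : CovD 1 gE5 [(13582204928, 2587885568), (824633720832, 274877906944), (863610339328, 863610339328)] :=
  covD_split 1 (by decide +kernel) E5_c0_t1 E5_c0_t2

end Pool.Agent.helper14.NS.Q68c
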