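import Pool.Agent.helper14.NS.Q68c.PN7

/-!
Generated: certificates.
-/

namespace Pool.Agent.helper14.NS.Q68c

open Pool.Agent.helper31.IA (Z)
open Pool.Agent.helper31.IX (Op XOps runX Cov CovD cov_split covD_split)
open Pool.Agent.helper31.IC (TD)
open Pool.Agent.helper63.RG (reloc)
open Pool.Agent.helper63.NF hiding TD
open Pool.Agent.helper4.NS
open Pool.Agent.helper14.CF (xE covD_E)
open Pool.Agent.helper14.NR (share)

mutual
theorem A7_c0_t5 : CovD 1 gA7 [(12288262144, 1293942784), (618475290624, 68719476736), (1099511627776, 1099511627776)] :=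
  covD_E kA7_eq (.n 2 (.n 2 (.n 2 (.n 2 (.l 0) (.l 0)) (.n 2 (.l 0) (.l 0))) (.n 0 (.n 2 (.l 0) (.l 0)) (.n 2 (.l 0) (.l 0)))) (.n 0 (.n 2 (.n 2 (.l 0) (.l 0)) (.n 2 (.l 0) (.l 0))) (.n 2 (.n 2 (.l 0) (.l 0)) (.n 2 (.l 0) (.l 0)))))
    [(12288262144, 1293942784), (618475290624, 68719476736), (1099511627776, 1099511627776)] rfl (by decide +kernel)
theorem A7_c0_t8 : CovD 1 gA7 [(12288262144, 1293942784), (618475290624, 68719476736), (2473901162496, 274877906944)] :=
  covD_E kA7_eq (.n 2 (.n 2 (.l 0) (.l 0)) (.n 0 (.n 2 (.l 0) (.l 0)) (.n 2 (.l 0) (.l 0))))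
    [(12288262144, 1293942784), (618475290624, 68719476736), (2473901162496, 274877906944)] rfl (by decide +kernel)
end

mutual
theorem A7_c0_t9 : CovD 1 gA7 [(12288262144, 1293942784), (618475290624, 68719476736), (3023656976384, 274877906944)] :=
  covD_E kA7_eq (.n 0 (.n 2 (.n 2 (.l 0) (.n 0 (.l 0) (.l 0))) (.n 2 (.n 2 (.l 0) (.l 0)) (.n 2 (.l 0) (.l 0)))) (.n 2 (.n 2 (.l 0) (.l 0)) (.n 2 (.l 0) (.l 0))))
    [(12288262144, 1293942784), (618475290624, 68719476736), (3023656976384, 274877906944)] rfl (by decide +kernel)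
theorem A7_c0_t10 : CovD 1 gA7 [(12288262144, 1293942784), (618475290624, 68719476736), (3848290697216, 549755813888)] :=
  covD_E kA7_eq (.n 0 (.n 2 (.n 2 (.n 2 (.n 2 (.l 0) (.l 0)) (.n 2 (.l 0) (.l 0))) (.n 2 (.n 0 (.l 0) (.l 0)) (.l 0))) (.n 2 (.n 2 (.l 0) (.l 0)) (.n 0 (.l 0) (.l 0)))) (.n 2 (.n 2 (.n 2 (.l 0) (.l 0)) (.l 0)) (.n 2 (.l 0) (.l 0))))
    [(12288262144, 1293942784), (618475290624, 68719476736), (3848290697216, 549755813888)] rfl (by decide +kernel)
end

mutual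
theorem A7_c0_t12 : CovD 1 gA7 [(12288262144, 1293942784), (755914244096, 68719476736), (1099511627776, 1099511627776)] :=
  covD_E kA7_eq (.n 2 (.n 2 (.n 2 (.n 2 (.l 0) (.l 0)) (.n 2 (.l 0) (.l 0))) (.n 0 (.n 2 (.l 0) (.l 0)) (.n 2 (.l 0) (.l 0)))) (.n 0 (.n 2 (.n 2 (.l 0) (.l 0)) (.n 2 (.l 0) (.l 0))) (.n 2 (.n 2 (.l 0) (.l 0)) (.n 2 (.l 0) (.l 0)))))
    [(12288262144, 1293942784), (755914244096, 68719476736), (1099511627776, 1099511627776)] rfl (by decide +kernel)
theorem A7_c0_t14 : CovD 1 gA7 [(12288262144, 1293942784), (755914244096, 68719476736), (2748779069440, 549755813888)] :=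
  covD_E kA7_eq (.n 2 (.n 2 (.n 2 (.l 0) (.l 0)) (.n 2 (.l 0) (.n 0 (.l 0) (.l 0)))) (.n 0 (.n 2 (.n 2 (.l 0) (.l 0)) (.n 2 (.l 0) (.l 0))) (.n 2 (.n 2 (.l 0) (.l 0)) (.n 2 (.l 0) (.l 0)))))
    [(12288262144, 1293942784), (755914244096, 68719476736), (2748779069440, 549755813888)] rfl (by decide +kernel)
end

mutual
theorem A7_c0_t15 : CovD 1 gA7 [(12288262144, 1293942784), (755914244096, 68719476736), (3848290697216, 549755813888)] :=
  covD_E kA7_eq (.n 2 (.n 0 (.n 2 (.n 2 (.l 0) (.l 0)) (.n 2 (.l 0) (.l 0))) (.n 2 (.l 0) (.l 0))) (.n 2 (.n 2 (.l 0) (.l 0)) (.n 0 (.l 0) (.l 0))))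
    [(12288262144, 1293942784), (755914244096, 68719476736), (3848290697216, 549755813888)] rfl (by decide +kernel)
theorem A7_c0_t18 : CovD 1 gA7 [(12288262144, 1293942784), (893353197568, 68719476736), (1099511627776, 1099511627776)] :=
  covD_E kA7_eq (.n 2 (.n 2 (.n 2 (.n 2 (.l 0) (.l 0)) (.n 0 (.l 0) (.l 0))) (.n 2 (.n 0 (.l 0) (.l 0)) (.l 0))) (.n 0 (.n 2 (.n 2 (.l 0) (.l 0)) (.n 2 (.l 0) (.l 0))) (.n 2 (.n 2 (.l 0) (.l 0)) (.n 2 (.l 0) (.l 0)))))
    [(12288262144, 1293942784), (893353197568, 68719476736), (1099511627776, 1099511627776)] rfl (by decide +kernel)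
end

mutual
theorem A7_c0_t19 : CovD 1 gA7 [(12288262144, 1293942784), (1030792151040, 68719476736), (1099511627776, 1099511627776)] :=
  covD_E kA7_eq (.n 2 (.n 2 (.n 0 (.n 2 (.l 0) (.l 0)) (.n 2 (.l 0) (.l 0))) (.n 2 (.n 0 (.l 0) (.l 0)) (.l 0))) (.n 0 (.n 2 (.n 2 (.l 0) (.l 0)) (.n 2 (.l 0) (.l 0))) (.n 2 (.n 2 (.l 0) (.l 0)) (.n 2 (.l 0) (.l 0)))))
    [(12288262144, 1293942784), (1030792151040, 68719476736), (1099511627776, 1099511627776)] rfl (by decide +kernel)
theorem A7_c0_t22 : CovD 1 gA7 [(12288262144, 1293942784), (893353197568, 68719476736), (2748779069440, 549755813888)] :=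
  covD_E kA7_eq (.n 2 (.n 2 (.n 0 (.l 0) (.l 0)) (.n 2 (.l 0) (.l 0))) (.n 2 (.n 2 (.l 0) (.l 0)) (.n 0 (.n 2 (.l 0) (.l 0)) (.l 0))))
    [(12288262144, 1293942784), (893353197568, 68719476736), (2748779069440, 549755813888)] rfl (by decide +kernel)
end

mutual
theorem A7_c0_t23 : CovD 1 gA7 [(12288262144, 1293942784), (1030792151040, 68719476736), (2748779069440, 549755813888)] :=
  covD_E kA7_eq (.n 0 (.n 2 (.n 2 (.l 0) (.l 0)) (.n 2 (.l 0) (.l 0))) (.n 2 (.n 2 (.l 0) (.l 0)) (.n 2 (.l 0) (.l 0))))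
    [(12288262144, 1293942784), (1030792151040, 68719476736), (2748779069440, 549755813888)] rfl (by decide +kernel)
theorem A7_c0_t24 : CovD 1 gA7 [(12288262144, 1293942784), (962072674304, 137438953472), (3848290697216, 549755813888)] :=
  covD_E kA7_eq (.n 2 (.n 2 (.n 1 (.n 2 (.l 0) (.l 0)) (.n 0 (.l 0) (.l 0))) (.n 0 (.n 1 (.l 0) (.l 0)) (.l 0))) (.n 0 (.n 1 (.n 2 (.l 0) (.l 0)) (.n 2 (.l 0) (.l 0))) (.n 2 (.l 0) (.l 0))))
    [(12288262144, 1293942784), (962072674304, 137438953472), (3848290697216, 549755813888)] rfl (by decide +kernel)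
end

mutual
theorem A7_c0_t28 : CovD 1 gA7 [(11641290752, 646971392), (824633720832, 274877906944), (4947802324992, 549755813888)] :=
  covD_E kA7_eq (.n 2 (.n 2 (.n 1 (.n 2 (.n 0 (.n 2 (.l 0) (.l 1)) (.n 2 (.l 0) (.n 0 (.l 1) (.l 1)))) (.l 1)) (.n 0 (.n 2 (.n 2 (.l 0) (.n 1 (.l 1) (.l 1))) (.l 1)) (.n 2 (.l 0) (.l 1)))) (.l 1)) (.l 1))
    [(11641290752, 646971392), (824633720832, 274877906944), (4947802324992, 549755813888)] rfl (by decide +kernel)
theorem A7_c0_t29 : CovD 1 gA7 [(12935233536, 646971392), (824633720832, 274877906944), (4947802324992, 549755813888)] :=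
  covD_E kA7_eq (.n 2 (.n 1 (.n 2 (.n 2 (.n 2 (.l 0) (.n 0 (.n 1 (.l 1) (.l 1)) (.n 1 (.l 1) (.l 0)))) (.l 1)) (.l 1)) (.n 2 (.n 2 (.l 0) (.n 0 (.l 1) (.n 1 (.l 1) (.l 1)))) (.l 1))) (.l 1))
    [(12935233536, 646971392), (824633720832, 274877906944), (4947802324992, 549755813888)] rfl (by decide +kernel)
end

mutual
theorem A7_c0_t30 : CovD 1 gA7 [(12288262144, 1293942784), (824633720832, 274877906944), (6047313952768, 549755813888)] :=
  covD_E kA7_eq (.l 1)
    [(12288262144, 1293942784), (824633720832, 274877906944), (6047313952768, 549755813888)] rfl (by decide +kernel)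
theorem A7_c0_t31 : CovD 1 gA7 [(12288262144, 1293942784), (824633720832, 274877906944), (7696581394432, 1099511627776)] :=
  covD_E kA7_eq (.n 2 (.l 1) (.l 1))
    [(12288262144, 1293942784), (824633720832, 274877906944), (7696581394432, 1099511627776)] rfl (by decide +kernel)
end

mutual
theorem A7_c0_t36 : CovD 1 gA7 [(14876147712, 1293942784), (618475290624, 68719476736), (1099511627776, 1099511627776)] :=
  covD_E kA7_eq (.n 2 (.n 2 (.n 2 (.n 2 (.l 0) (.l 0)) (.n 2 (.l 0) (.l 0))) (.n 2 (.n 2 (.l 0) (.l 0)) (.n 2 (.l 0) (.l 0)))) (.n 2 (.n 2 (.n 2 (.l 0) (.l 0)) (.n 2 (.l 0) (.l 0))) (.n 2 (.n 2 (.l 0) (.l 0)) (.n 2 (.l 0) (.l 0)))))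
    [(14876147712, 1293942784), (618475290624, 68719476736), (1099511627776, 1099511627776)] rfl (by decide +kernel)
theorem A7_c0_t37 : CovD 1 gA7 [(14876147712, 1293942784), (618475290624, 68719476736), (3298534883328, 1099511627776)] :=
  covD_E kA7_eq (.n 2 (.n 2 (.n 2 (.n 2 (.l 0) (.l 0)) (.n 2 (.l 0) (.l 0))) (.n 2 (.n 2 (.l 0) (.l 0)) (.n 2 (.l 0) (.l 0)))) (.n 2 (.n 2 (.n 0 (.l 0) (.l 0)) (.l 0)) (.n 0 (.l 0) (.l 0))))
    [(14876147712, 1293942784), (618475290624, 68719476736), (3298534883328, 1099511627776)] rfl (by decide +kernel)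
end

mutual
theorem A7_c0_t39 : CovD 1 gA7 [(14876147712, 1293942784), (755914244096, 68719476736), (1099511627776, 1099511627776)] :=
  covD_E kA7_eq (.n 2 (.n 2 (.n 2 (.n 2 (.l 0) (.l 0)) (.n 2 (.l 0) (.l 0))) (.n 1 (.n 2 (.l 0) (.l 0)) (.n 2 (.l 0) (.l 0)))) (.n 0 (.n 2 (.n 2 (.l 0) (.l 0)) (.n 2 (.l 0) (.l 0))) (.n 2 (.n 2 (.l 0) (.l 0)) (.n 2 (.l 0) (.l 0)))))
    [(14876147712, 1293942784), (755914244096, 68719476736), (1099511627776, 1099511627776)] rfl (by decide +kernel)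
theorem A7_c0_t40 : CovD 1 gA7 [(14876147712, 1293942784), (755914244096, 68719476736), (3298534883328, 1099511627776)] :=
  covD_E kA7_eq (.n 2 (.n 2 (.n 2 (.n 0 (.l 0) (.l 0)) (.n 2 (.l 0) (.l 0))) (.n 0 (.n 2 (.l 0) (.l 0)) (.n 2 (.l 0) (.l 0)))) (.n 2 (.n 2 (.l 0) (.l 0)) (.n 0 (.l 0) (.l 0))))
    [(14876147712, 1293942784), (755914244096, 68719476736), (3298534883328, 1099511627776)] rfl (by decide +kernel)
end

mutual
theorem A7_c0_t43 : CovD 1 gA7 [(14876147712, 1293942784), (893353197568, 68719476736), (1099511627776, 1099511627776)] :=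
  covD_E kA7_eq (.n 2 (.n 2 (.n 2 (.n 2 (.l 0) (.l 0)) (.n 2 (.l 0) (.l 0))) (.n 0 (.n 2 (.l 0) (.l 0)) (.n 2 (.l 0) (.l 0)))) (.n 0 (.n 2 (.n 2 (.l 0) (.l 0)) (.n 2 (.l 0) (.l 0))) (.n 2 (.n 2 (.l 0) (.l 0)) (.n 2 (.l 0) (.l 0)))))
    [(14876147712, 1293942784), (893353197568, 68719476736), (1099511627776, 1099511627776)] rfl (by decide +kernel)
theorem A7_c0_t44 : CovD 1 gA7 [(14876147712, 1293942784), (893353197568, 68719476736), (3298534883328, 1099511627776)] :=
  covD_E kA7_eq (.n 2 (.n 2 (.n 0 (.n 2 (.l 0) (.l 0)) (.n 2 (.l 0) (.l 0))) (.n 2 (.n 0 (.l 0) (.l 0)) (.l 0))) (.n 2 (.n 2 (.l 0) (.l 0)) (.l 0)))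
    [(14876147712, 1293942784), (893353197568, 68719476736), (3298534883328, 1099511627776)] rfl (by decide +kernel)
end

mutual
theorem A7_c0_t46 : CovD 1 gA7 [(14876147712, 1293942784), (1030792151040, 68719476736), (1099511627776, 1099511627776)] :=
  covD_E kA7_eq (.n 2 (.n 2 (.n 0 (.n 2 (.l 0) (.l 0)) (.n 2 (.l 0) (.l 0))) (.n 2 (.l 0) (.l 0))) (.n 2 (.n 2 (.l 0) (.l 0)) (.n 2 (.l 0) (.l 0))))
    [(14876147712, 1293942784), (1030792151040, 68719476736), (1099511627776, 1099511627776)] rfl (by decide +kernel)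
theorem A7_c0_t47 : CovD 1 gA7 [(14876147712, 1293942784), (1030792151040, 68719476736), (3298534883328, 1099511627776)] :=
  covD_E kA7_eq (.n 2 (.n 2 (.n 2 (.l 0) (.l 0)) (.n 2 (.l 0) (.l 0))) (.n 2 (.n 0 (.l 0) (.l 0)) (.l 0)))
    [(14876147712, 1293942784), (1030792151040, 68719476736), (3298534883328, 1099511627776)] rfl (by decide +kernel)
end

mutual
theorem A7_c0_t51 : CovD 1 gA7 [(14229176320, 646971392), (824633720832, 274877906944), (4947802324992, 549755813888)] :=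
  covD_E kA7_eq (.n 2 (.n 1 (.n 2 (.n 0 (.n 2 (.n 0 (.l 0) (.l 0)) (.l 1)) (.n 2 (.l 0) (.n 0 (.l 1) (.l 1)))) (.l 1)) (.n 2 (.n 2 (.l 0) (.n 1 (.n 0 (.l 1) (.n 0 (.l 1) (.l 1))) (.n 2 (.l 0) (.l 1)))) (.l 1))) (.l 1))
    [(14229176320, 646971392), (824633720832, 274877906944), (4947802324992, 549755813888)] rfl (by decide +kernel)
theorem A7_c0_t52 : CovD 1 gA7 [(15523119104, 646971392), (824633720832, 274877906944), (4947802324992, 549755813888)] :=
  covD_E kA7_eq (.n 2 (.n 1 (.n 2 (.n 2 (.l 0) (.n 1 (.n 0 (.l 1) (.l 1)) (.n 2 (.l 0) (.l 1)))) (.l 1)) (.n 0 (.n 2 (.n 0 (.l 0) (.l 0)) (.l 1)) (.n 2 (.l 0) (.l 1)))) (.l 1))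
    [(15523119104, 646971392), (824633720832, 274877906944), (4947802324992, 549755813888)] rfl (by decide +kernel)
end

mutual
theorem A7_c0_t53 : CovD 1 gA7 [(14876147712, 1293942784), (824633720832, 274877906944), (6047313952768, 549755813888)] :=
  covD_E kA7_eq (.l 1)
    [(14876147712, 1293942784), (824633720832, 274877906944), (6047313952768, 549755813888)] rfl (by decide +kernel)
theorem A7_c0_t54 : CovD 1 gA7 [(14876147712, 1293942784), (824633720832, 274877906944), (7696581394432, 1099511627776)] :=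
  covD_E kA7_eq (.n 2 (.l 1) (.l 1))
    [(14876147712, 1293942784), (824633720832, 274877906944), (7696581394432, 1099511627776)] rfl (by decide +kernel)
end

mutual
theorem B7_c0_t3 : CovD 1 gB7 [(12288262144, 1293942784), (687194767360, 137438953472), (34359738368, 34359738368)] :=
  covD_E kB7_eq (.n 2 (.n 0 (.n 2 (.n 2 (.l 1) (.l 1)) (.n 2 (.l 1) (.l 1))) (.n 2 (.n 2 (.l 1) (.l 1)) (.n 2 (.l 1) (.l 1)))) (.n 2 (.n 2 (.n 0 (.l 1) (.l 1)) (.l 1)) (.n 0 (.l 1) (.l 1))))
    [(12288262144, 1293942784), (687194767360, 137438953472), (34359738368, 34359738368)] rfl (by decide +kernel)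
theorem B7_c0_t4 : CovD 1 gB7 [(12288262144, 1293942784), (962072674304, 137438953472), (34359738368, 34359738368)] :=
  covD_E kB7_eq (.n 2 (.n 2 (.n 2 (.l 1) (.l 1)) (.n 2 (.l 1) (.l 1))) (.n 2 (.n 2 (.l 1) (.l 1)) (.l 1)))
    [(12288262144, 1293942784), (962072674304, 137438953472), (34359738368, 34359738368)] rfl (by decide +kernel)
end

mutual
theorem B7_c0_t5 : CovD 1 gB7 [(12288262144, 1293942784), (824633720832, 274877906944), (103079215104, 34359738368)] :=
  covD_E kB7_eq (.n 2 (.n 2 (.n 2 (.l 1) (.l 1)) (.n 0 (.l 1) (.l 1))) (.n 2 (.l 1) (.l 1)))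
    [(12288262144, 1293942784), (824633720832, 274877906944), (103079215104, 34359738368)] rfl (by decide +kernel)
theorem B7_c0_t7 : CovD 1 gB7 [(14876147712, 1293942784), (824633720832, 274877906944), (34359738368, 34359738368)] :=
  covD_E kB7_eq (.n 1 (.n 2 (.n 2 (.n 2 (.l 1) (.l 1)) (.n 2 (.l 1) (.l 1))) (.n 2 (.n 2 (.l 1) (.l 1)) (.n 0 (.l 1) (.l 1)))) (.n 2 (.n 2 (.n 2 (.l 1) (.l 1)) (.n 0 (.l 1) (.l 1))) (.n 2 (.n 0 (.l 1) (.l 1)) (.l 1))))
    [(14876147712, 1293942784), (824633720832, 274877906944), (34359738368, 34359738368)] rfl (by decide +kernel)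
end

mutual
theorem B7_c0_t8 : CovD 1 gB7 [(14876147712, 1293942784), (824633720832, 274877906944), (103079215104, 34359738368)] :=
  covD_E kB7_eq (.n 2 (.n 0 (.n 2 (.l 1) (.l 1)) (.n 2 (.l 1) (.l 1))) (.n 2 (.l 1) (.l 1)))
    [(14876147712, 1293942784), (824633720832, 274877906944), (103079215104, 34359738368)] rfl (by decide +kernel)
theorem D7_c0 : CovD 1 gD7 [(13582204928, 2587885568), (824633720832, 274877906944), (863610339328, 863610339328)] :=
  covD_E kD7_eq (.n 1 (.n 2 (.n 2 (.n 2 (.l 0) (.l 0)) (.n 2 (.l 0) (.l 0))) (.n 2 (.n 2 (.l 0) (.l 0)) (.n 2 (.l 0) (.l 0)))) (.n 2 (.n 2 (.n 2 (.l 0) (.l 0)) (.n 2 (.l 0) (.l 0))) (.n 2 (.n 2 (.l 0) (.l 0)) (.n 2 (.l 0) (.l 0)))))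
    [(13582204928, 2587885568), (824633720832, 274877906944), (863610339328, 863610339328)] rfl (by decide +kernel)
end

mutual
theorem E7_c0_t2 : CovD 1 gE7 [(13582204928, 2587885568), (824633720832, 274877906944), (215902584832, 215902584832)] :=
  covD_E kE7_eq (.n 2 (.l 1) (.n 0 (.n 2 (.l 1) (.n 0 (.n 1 (.n 2 (.l 1) (.l 0)) (.n 2 (.l 1) (.l 0))) (.n 1 (.n 1 (.l 0) (.l 1)) (.l 1)))) (.l 1)))
    [(13582204928, 2587885568), (824633720832, 274877906944), (215902584832, 215902584832)] rfl (by decide +kernel)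
theorem E7_c0_t4 : CovD 1 gE7 [(13582204928, 2587885568), (687194767360, 137438953472), (647707754496, 215902584832)] :=
  covD_E kE7_eq (.n 0 (.n 2 (.n 2 (.n 0 (.l 0) (.l 0)) (.l 0)) (.n 2 (.l 0) (.l 0))) (.n 2 (.n 2 (.n 0 (.l 0) (.l 0)) (.l 0)) (.n 2 (.l 0) (.l 0))))
    [(13582204928, 2587885568), (687194767360, 137438953472), (647707754496, 215902584832)] rfl (by decide +kernel)
end

mutual
theorem E7_c0_t5 : CovD 1 gE7 [(13582204928, 2587885568), (962072674304, 137438953472), (647707754496, 215902584832)] :=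
  covD_E kE7_eq (.n 2 (.n 0 (.n 2 (.n 0 (.l 0) (.l 0)) (.l 0)) (.n 2 (.l 0) (.l 0))) (.n 2 (.n 0 (.l 0) (.l 0)) (.l 0)))
    [(13582204928, 2587885568), (962072674304, 137438953472), (647707754496, 215902584832)] rfl (by decide +kernel)
theorem E7_c0_t6 : CovD 1 gE7 [(13582204928, 2587885568), (824633720832, 274877906944), (1295415508992, 431805169664)] :=
  covD_E kE7_eq (.n 1 (.n 2 (.n 2 (.n 2 (.l 0) (.l 0)) (.n 2 (.l 0) (.l 0))) (.n 2 (.n 0 (.l 0) (.l 0)) (.l 0))) (.n 2 (.n 2 (.n 2 (.l 0) (.l 0)) (.n 2 (.l 0) (.l 0))) (.n 2 (.n 0 (.l 0) (.l 0)) (.l 0))))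
    [(13582204928, 2587885568), (824633720832, 274877906944), (1295415508992, 431805169664)] rfl (by decide +kernel)
end

theorem A7_c0_t7 : CovD 1 gA7 [(12288262144, 1293942784), (618475290624, 68719476736), (2748779069440, 549755813888)] :=
  covD_split 2 (by decide +kernel) A7_c0_t8 A7_c0_t9

theorem A7_c0_t6 : CovD 1 gA7 [(12288262144, 1293942784), (618475290624, 68719476736), (3298534883328, 1099511627776)] :=
  covD_split 2 (by decide +kernel) A7_c0_t7 A7_c0_t10

theorem A7_c0_t4 : CovD 1 gA7 [(12288262144, 1293942784), (618475290624, 68719476736), (2199023255552, 2199023255552)] :=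
  covD_split 2 (by decide +kernel) A7_c0_t5 A7_c0_t6

theorem A7_c0_t13 : CovD 1 gA7 [(12288262144, 1293942784), (755914244096, 68719476736), (3298534883328, 1099511627776)] :=
  covD_split 2 (by decide +kernel) A7_c0_t14 A7_c0_t15

theorem A7_c0_t11 : CovD 1 gA7 [(12288262144, 1293942784), (755914244096, 68719476736), (2199023255552, 2199023255552)] :=
  covD_split 2 (by decide +kernel) A7_c0_t12 A7_c0_t13

theorem A7_c0_t3 : CovD 1 gA7 [(12288262144, 1293942784), (687194767360, 137438953472), (2199023255552, 2199023255552)] :=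
  covD_split 1 (by decide +kernel) A7_c0_t4 A7_c0_t11

theorem A7_c0_t17 : CovD 1 gA7 [(12288262144, 1293942784), (962072674304, 137438953472), (1099511627776, 1099511627776)] :=
  covD_split 1 (by decide +kernel) A7_c0_t18 A7_c0_t19

theorem A7_c0_t21 : CovD 1 gA7 [(12288262144, 1293942784), (962072674304, 137438953472), (2748779069440, 549755813888)] :=
  covD_split 1 (by decide +kernel) A7_c0_t22 A7_c0_t23

theorem A7_c0_t20 : CovD 1 gA7 [(12288262144, 1293942784), (962072674304, 137438953472), (3298534883328, 1099511627776)] :=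
  covD_split 2 (by decide +kernel) A7_c0_t21 A7_c0_t24

theorem A7_c0_t16 : CovD 1 gA7 [(12288262144, 1293942784), (962072674304, 137438953472), (2199023255552, 2199023255552)] :=
  covD_split 2 (by decide +kernel) A7_c0_t17 A7_c0_t20

theorem A7_c0_t2 : CovD 1 gA7 [(12288262144, 1293942784), (824633720832, 274877906944), (2199023255552, 2199023255552)] :=
  covD_split 1 (by decide +kernel) A7_c0_t3 A7_c0_t16

theorem A7_c0_t27 : CovD 1 gA7 [(12288262144, 1293942784), (824633720832, 274877906944), (4947802324992, 549755813888)] :=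
  covD_split 0 (by decide +kernel) A7_c0_t28 A7_c0_t29

theorem A7_c0_t26 : CovD 1 gA7 [(12288262144, 1293942784), (824633720832, 274877906944), (5497558138880, 1099511627776)] :=
  covD_split 2 (by decide +kernel) A7_c0_t27 A7_c0_t30

theorem A7_c0_t25 : CovD 1 gA7 [(12288262144, 1293942784), (824633720832, 274877906944), (6597069766656, 2199023255552)] :=
  covD_split 2 (by decide +kernel) A7_c0_t26 A7_c0_t31

theorem A7_c0_t1 : CovD 1 gA7 [(12288262144, 1293942784), (824633720832, 274877906944), (4398046511104, 4398046511104)] :=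
  covD_split 2 (by decide +kernel) A7_c0_t2 A7_c0_t25

theorem A7_c0_t35 : CovD 1 gA7 [(14876147712, 1293942784), (618475290624, 68719476736), (2199023255552, 2199023255552)] :=
  covD_split 2 (by decide +kernel) A7_c0_t36 A7_c0_t37

theorem A7_c0_t38 : CovD 1 gA7 [(14876147712, 1293942784), (755914244096, 68719476736), (2199023255552, 2199023255552)] :=
  covD_split 2 (by decide +kernel) A7_c0_t39 A7_c0_t40

theorem A7_c0_t34 : CovD 1 gA7 [(14876147712, 1293942784), (687194767360, 137438953472), (2199023255552, 2199023255552)] :=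
  covD_split 1 (by decide +kernel) A7_c0_t35 A7_c0_t38

theorem A7_c0_t42 : CovD 1 gA7 [(14876147712, 1293942784), (893353197568, 68719476736), (2199023255552, 2199023255552)] :=
  covD_split 2 (by decide +kernel) A7_c0_t43 A7_c0_t44

theorem A7_c0_t45 : CovD 1 gA7 [(14876147712, 1293942784), (1030792151040, 68719476736), (2199023255552, 2199023255552)] :=
  covD_split 2 (by decide +kernel) A7_c0_t46 A7_c0_t47

theorem A7_c0_t41 : CovD 1 gA7 [(14876147712, 1293942784), (962072674304, 137438953472), (2199023255552, 2199023255552)] :=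
  covD_split 1 (by decide +kernel) A7_c0_t42 A7_c0_t45

theorem A7_c0_t33 : CovD 1 gA7 [(14876147712, 1293942784), (824633720832, 274877906944), (2199023255552, 2199023255552)] :=
  covD_split 1 (by decide +kernel) A7_c0_t34 A7_c0_t41

theorem A7_c0_t50 : CovD 1 gA7 [(14876147712, 1293942784), (824633720832, 274877906944), (4947802324992, 549755813888)] :=
  covD_split 0 (by decide +kernel) A7_c0_t51 A7_c0_t52

theorem A7_c0_t49 : CovD 1 gA7 [(14876147712, 1293942784), (824633720832, 274877906944), (5497558138880, 1099511627776)] :=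
  covD_split 2 (by decide +kernel) A7_c0_t50 A7_c0_t53

theorem A7_c0_t48 : CovD 1 gA7 [(14876147712, 1293942784), (824633720832, 274877906944), (6597069766656, 2199023255552)] :=
  covD_split 2 (by decide +kernel) A7_c0_t49 A7_c0_t54

theorem A7_c0_t32 : CovD 1 gA7 [(14876147712, 1293942784), (824633720832, 274877906944), (4398046511104, 4398046511104)] :=
  covD_split 2 (by decide +kernel) A7_c0_t33 A7_c0_t48

theorem A7_c0 : CovD 1 gA7 [(13582204928, 2587885568), (824633720832, 274877906944), (4398046511104, 4398046511104)] :=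
  covD_split 0 (by decide +kernel) A7_c0_t1 A7_c0_t32

theorem B7_c0_t2 : CovD 1 gB7 [(12288262144, 1293942784), (824633720832, 274877906944), (34359738368, 34359738368)] :=
  covD_split 1 (by decide +kernel) B7_c0_t3 B7_c0_t4

theorem B7_c0_t1 : CovD 1 gB7 [(12288262144, 1293942784), (824633720832, 274877906944), (68719476736, 68719476736)] :=
  covD_split 2 (by decide +kernel) B7_c0_t2 B7_c0_t5

theorem B7_c0_t6 : CovD 1 gB7 [(14876147712, 1293942784), (824633720832, 274877906944), (68719476736, 68719476736)] :=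
  covD_split 2 (by decide +kernel) B7_c0_t7 B7_c0_t8

theorem B7_c0 : CovD 1 gB7 [(13582204928, 2587885568), (824633720832, 274877906944), (68719476736, 68719476736)] :=
  covD_split 0 (by decide +kernel) B7_c0_t1 B7_c0_t6

theorem E7_c0_t3 : CovD 1 gE7 [(13582204928, 2587885568), (824633720832, 274877906944), (647707754496, 215902584832)] :=
  covD_split 1 (by decide +kernel) E7_c0_t4 E7_c0_t5

theorem E7_c0_t1 : CovD 1 gE7 [(13582204928, 2587885568), (824633720832, 274877906944), (431805169664, 431805169664)] :=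
  covD_split 2 (by decide +kernel) E7_c0_t2 E7_c0_t3

theorem E7_c0 : CovD 1 gE7 [(13582204928, 2587885568), (824633720832, 274877906944), (863610339328, 863610339328)] :=
  covD_split 2 (by decide +kernel) E7_c0_t1 E7_c0_t6

end Pool.Agent.helper14.NS.Q68c
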